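import Mathlib
import Pool.Agent.H.MP_e9cb08_gt.A

open MeasureTheory Set Filter Topology
open scoped ENNReal RealInnerProductSpace

namespace Pool.Agent.Results.MP_e9cb08_gt.Holds

open Pool.Agent.H.MP_e9cb08_gt

lemma two (x y : ℝ) : x ^ 2 + y ^ 2 ≤
    (5 / 12 * (|x| + |y| + |3 / 5 * x + 4 / 5 * y| + |-(4 / 5) * x + 3 / 5 * y|)) ^ 2 := by
  rcases abs_cases x with ⟨a, a'⟩ | ⟨a, a'⟩ <;> rcases abs_cases y with ⟨b, b'⟩ | ⟨b, b'⟩ <;>
  rcases abs_cases (3 / 5 * x + 4 / 5 * y) with ⟨c, c'⟩ | ⟨c, c'⟩ <;>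
  rcases abs_cases (-(4 / 5) * x + 3 / 5 * y) with ⟨d, d'⟩ | ⟨d, d'⟩ <;>
  rw [a, b, c, d] <;> nlinarith [mul_nonneg (abs_nonneg x) (abs_nonneg y),
    mul_nonneg (abs_nonneg x) (abs_nonneg (3 / 5 * x + 4 / 5 * y)),
    mul_nonneg (abs_nonneg x) (abs_nonneg (-(4 / 5) * x + 3 / 5 * y)),
    mul_nonneg (abs_nonneg y) (abs_nonneg (3 / 5 * x + 4 / 5 * y)),
    mul_nonneg (abs_nonneg y) (abs_nonneg (-(4 / 5) * x + 3 / 5 * y))]

lemma fam (k : ℕ) : ∃ (u : Fin k ⊕ Fin 4 → EuclideanSpace ℝ (Fin (k + 2))) (w : Fin k ⊕ Fin 4 → ℝ),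
    (∀ j, ‖u j‖ = 1) ∧ (∀ j, 0 ≤ w j) ∧ ∑ j, w j = k + 5 / 3 ∧
    ∀ g, ‖g‖ ≤ ∑ j, w j * |⟪g, u j⟫| := by
  let e : Fin (k + 2) → EuclideanSpace ℝ (Fin (k + 2)) := fun i => EuclideanSpace.single i 1
  have he : ∀ g i, ⟪g, e i⟫ = g i := fun g i => by simp [e, EuclideanSpace.inner_single_right]
  have e1 : ∀ i, ‖e i‖ = 1 := fun i => by simp [e]
  have e01 : ⟪e 0, e 1⟫ = 0 := by rw [he]; simp [e]
  have nn : ∀ a b : ℝ, a ^ 2 + b ^ 2 = 1 → ‖a • e 0 + b • e 1‖ = 1 := by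
    intro a b hab
    have : ‖a • e 0 + b • e 1‖ ^ 2 = 1 := by
      rw [norm_add_sq_real, real_inner_smul_left, real_inner_smul_right, e01, norm_smul, norm_smul,
        e1, e1]
      simpa using hab
    nlinarith [norm_nonneg (a • e 0 + b • e 1)]
  refine ⟨Sum.elim (fun i => e i.succ.succ) ![e 0, e 1, (3 / 5 : ℝ) • e 0 + (4 / 5 : ℝ) • e 1,
    (-(4 / 5) : ℝ) • e 0 + (3 / 5 : ℝ) • e 1], Sum.elim (fun _ => 1) fun _ => 5 / 12, ?_, ?_, ?_, ?_⟩
  · rintro (i | j)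
    · exact e1 _
    · fin_cases j
      · exact e1 _
      · exact e1 _
      · exact nn _ _ (by norm_num)
      · exact nn _ _ (by norm_num)
  · rintro (i | j) <;> simp
    norm_num
  · simp [Fintype.sum_sum_type]
    norm_num
  · intro g
    simp only [Fintype.sum_sum_type, Sum.elim_inl, Sum.elim_inr, Fin.sum_univ_four, he, one_mul,
      Matrix.cons_val_zero, Matrix.cons_val_one, Matrix.cons_val, inner_add_right,
      real_inner_smul_right]
    have h1 := EuclideanSpace.real_norm_sq_eq g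
    rw [Fin.sum_univ_succ, Fin.sum_univ_succ] at h1
    have h2 : ∑ i : Fin k, g i.succ.succ ^ 2 ≤ (∑ i : Fin k, |g i.succ.succ|) ^ 2 := by
      have := Finset.sum_sq_le_sq_sum_of_nonneg (s := Finset.univ)
        (f := fun i : Fin k => |g i.succ.succ|) (fun _ _ => abs_nonneg _)
      simpa using this
    have h3 := two (g 0) (g 1)
    have h4 : 0 ≤ ∑ i : Fin k, |g i.succ.succ| := Finset.sum_nonneg fun _ _ => abs_nonneg _
    have h5 : 0 ≤ 5 / 12 * (|g 0| + |g 1| + |3 / 5 * g 0 + 4 / 5 * g 1| +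
      |-(4 / 5) * g 0 + 3 / 5 * g 1|) := by positivity
    have h6 := mul_nonneg h4 h5
    refine (abs_le_of_sq_le_sq' ?_ (by positivity)).2
    simp only [Fin.succ_zero_eq_one] at h1
    nlinarith

theorem result (n : ℕ) (hn : 3 ≤ n) (h : EuclideanSpace ℝ (Fin (n - 1)) → ℝ)
    (h0 : ∀ y, 0 ≤ h y) (hc : ConvexOn ℝ univ h) (C : Set (EuclideanSpace ℝ (Fin (n - 1))))
    (hC : IsCompact C) (hv : Convex ℝ C) :
    ENNReal.ofReal (2 / ((n : ℝ) - 1)) *
        ∫⁻ z in C, ENNReal.ofReal (h z * √(1 + ‖gradient h z‖ ^ 2)) ≤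
      ∫⁻ y in frontier C, ENNReal.ofReal (‖y‖ ^ 2 + h y ^ 2) ∂μHE[n - 2] := by
  obtain ⟨k, rfl⟩ : ∃ k, n = k + 3 := ⟨n - 3, by omega⟩
  change EuclideanSpace ℝ (Fin (k + 2)) → ℝ at h
  change Set (EuclideanSpace ℝ (Fin (k + 2))) at C
  change ENNReal.ofReal (2 / (((k + 3 : ℕ) : ℝ) - 1)) *
        ∫⁻ z in C, ENNReal.ofReal (h z * √(1 + ‖gradient h z‖ ^ 2)) ≤
      ∫⁻ y in frontier C, ENNReal.ofReal (‖y‖ ^ 2 + h y ^ 2) ∂μHE[k + 1]
  obtain ⟨u, w, hu, hw, hs, hg⟩ := fam k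
  have hk : (0 : ℝ) ≤ k := by positivity
  set α : ℝ := 2 / (((k + 3 : ℕ) : ℝ) - 1) with hα
  have hα' : α = 2 / (k + 2) := by rw [hα]; push_cast; ring
  have a0 : 0 ≤ α := by rw [hα']; positivity
  have a1 : α ≤ 1 := by rw [hα', div_le_one (by positivity)]; linarith
  have aK : α * (k + 5 / 3) = 2 * (1 - α / 6) := by rw [hα']; field_simp; ring
  have hK : (0 : ℝ) < k + 5 / 3 := by positivity
  have hcont : Continuous h := continuousOn_univ.1 (hc.continuousOn isOpen_univ)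
  have hφ : ∀ j, Measurable fun z =>
      ENNReal.ofReal (α * h z + 2 * (1 - α / 6) * (h z * |fderiv ℝ h z (u j)|)) := by
    intro j
    have := measurable_fderiv_apply_const ℝ h (u j)
    have := hcont.measurable
    apply ENNReal.measurable_ofReal.comp
    fun_prop
  rw [← lintegral_const_mul' _ _ ENNReal.ofReal_ne_top]
  calc _ ≤ ∫⁻ z in C, ∑ j, ENNReal.ofReal (w j / (k + 5 / 3)) *
        ENNReal.ofReal (α * h z + 2 * (1 - α / 6) * (h z * |fderiv ℝ h z (u j)|)) := by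
        refine lintegral_mono fun z => ?_
        have hz := h0 z
        have hγ : 0 ≤ 1 - α / 6 := by linarith
        have p : ∀ j, 0 ≤ w j / (k + 5 / 3) := fun j => div_nonneg (hw j) hK.le
        simp only [← ENNReal.ofReal_mul (p _), ← ENNReal.ofReal_mul a0]
        rw [← ENNReal.ofReal_sum_of_nonneg fun j _ => mul_nonneg (p j) (by positivity)]
        apply ENNReal.ofReal_le_ofReal
        have s1 : √(1 + ‖gradient h z‖ ^ 2) ≤ 1 + ‖gradient h z‖ :=
          Real.sqrt_le_iff.2 ⟨by positivity, by nlinarith [norm_nonneg (gradient h z)]⟩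
        have s2 := hg (gradient h z)
        have s3 : ∀ v, ⟪gradient h z, v⟫ = fderiv ℝ h z v := fun v => by
          simp [gradient]
        simp only [s3] at s2
        have s4 : ∑ j, w j / (k + 5 / 3) * (α * h z + 2 * (1 - α / 6) *
            (h z * |fderiv ℝ h z (u j)|)) =
            α * (h z * (1 + ∑ j, w j * |fderiv ℝ h z (u j)|)) := by
          have : ∀ j, w j / (k + 5 / 3) * (α * h z + 2 * (1 - α / 6) *
              (h z * |fderiv ℝ h z (u j)|)) = α * h z / (k + 5 / 3) * w j +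
              α * h z * (w j * |fderiv ℝ h z (u j)|) := by
            intro j; rw [← aK]; field_simp
          simp only [this, Finset.sum_add_distrib, ← Finset.mul_sum, hs]
          field_simp
        rw [s4]
        exact mul_le_mul_of_nonneg_left (mul_le_mul_of_nonneg_left (by linarith) hz) a0
    _ = ∑ j, ENNReal.ofReal (w j / (k + 5 / 3)) * ∫⁻ z in C,
        ENNReal.ofReal (α * h z + 2 * (1 - α / 6) * (h z * |fderiv ℝ h z (u j)|)) := by
        rw [lintegral_finsetSum _ fun j _ => (hφ j).const_mul _]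
        simp only [lintegral_const_mul' _ _ ENNReal.ofReal_ne_top]
    _ ≤ ∑ j, ENNReal.ofReal (w j / (k + 5 / 3)) *
        ∫⁻ y in frontier C, ENNReal.ofReal (‖y‖ ^ 2 + h y ^ 2) ∂μHE[k + 1] := by
        refine Finset.sum_le_sum fun j _ => ?_
        exact mul_le_mul_right (dir (k := k + 1) (by simp) (hu j) h0 hc hC hv a0 a1) _
    _ = _ := by
        rw [← Finset.sum_mul, ← ENNReal.ofReal_sum_of_nonneg fun j _ => div_nonneg (hw j) hK.le,
          ← Finset.sum_div, hs, div_self hK.ne']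
        simp

end Pool.Agent.Results.MP_e9cb08_gt.Holds
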